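import Pool.Agent.H10.Isotyp
import Pool.Agent.H22.LogHom2

open FirstOrder FirstOrder.Language

namespace Pool.Agent.Results.MP_00fd70_lc.Perfect
open Pool.Agent.H22.LogHom Pool.Agent.H10

theorem result (K : Type) [Field K] (n : ℕ) (hn : 2 ≤ n) (r : ℕ) (H : Type) [NonUnitalRing H]
    [Module K H] [IsScalarTower K H H] [SMulCommClass K H H] (x : Fin r → H)
    (hF : IsFreeNil K n r H x) :
    @Isotyp.Homog (lang K) H (str K H) ∧
    ∀ (B : Type) [NonUnitalRing B] [Module K B] [IsScalarTower K B B] [SMulCommClass K B B],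
      pw K B n = ⊥ → @Isotyp.Isotypic (lang K) H B (str K H) (str K B) →
      Nonempty (@FirstOrder.Language.Equiv (lang K) H B (str K H) (str K B)) := by
  letI := str K H
  have h1 : Isotyp.Homog (lang K) H := Isotyp.homog_of fun m a b h => by
    obtain ⟨σ, h1, h2⟩ := homog (by omega) hF m a b h
    refine ⟨⟨σ.toEquiv, fun {n} g v => ?_, fun {n} g _ => Empty.elim g⟩, funext h2⟩
    cases g with
    | add => exact map_add σ _ _
    | mul => exact h1 _ _
    | neg => exact map_neg σ _
    | zero => exact map_zero σ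
    | smul c => exact map_smul σ c _
  refine ⟨h1, fun B _ _ _ _ _ h => ?_⟩
  letI := str K B
  haveI : ∀ n, IsEmpty ((lang K).Relations n) := fun _ => (inferInstance : IsEmpty Empty)
  haveI : Nonempty H := ⟨0⟩
  exact Isotyp.iso_of_isotypic x (exists_term hF) h1 h

end Pool.Agent.Results.MP_00fd70_lc.Perfect
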